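import Mathlib

/-!
# The type B Eulerian transformation preserves log-convexity

The insertion of `±(n+1)` into a signed permutation gives a functional form of the recurrence of the type
B Eulerian numbers, and the Cauchy-Schwarz inequality over signed permutations does the rest.
-/

set_option autoImplicit false

namespace Pool.Agent.Results.MP_209e83_co.TypeB

/-- The set `{±1, ..., ±n}`. -/
def PM (n : ℕ) : Set ℤ := {i | i ≠ 0 ∧ -(n : ℤ) ≤ i ∧ i ≤ n}

/-- `w` is a signed permutation of `[n]`: a bijection of `{±1, ..., ±n}` with `w(-i) = -w(i)`, extended by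
`w = 0` outside this set; in particular `w(0) = 0`. -/
def IsSigned (n : ℕ) (w : ℤ → ℤ) : Prop :=
  Set.BijOn w (PM n) (PM n) ∧ (∀ i ∈ PM n, w (-i) = - w i) ∧ ∀ i, i ∉ PM n → w i = 0

/-- the number of type B descents: the indices `i ∈ {0, 1, ..., n - 1}` with `w(i) > w(i+1)` -/
def desB (n : ℕ) (w : ℤ → ℤ) : ℕ :=
  ((Finset.range n).filter fun i : ℕ => w ((i : ℤ) + 1) < w (i : ℤ)).card

/-- the type B Eulerian numbers: the number of signed permutations of `[n]` with `k` type B descents -/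
noncomputable def B (n k : ℕ) : ℕ := Set.ncard {w : ℤ → ℤ | IsSigned n w ∧ desB n w = k}

/-- log-convexity -/
def LogConvex (x : ℕ → ℝ) : Prop := ∀ k, 1 ≤ k → x k ^ 2 ≤ x (k - 1) * x (k + 1)

/-! ### Signed permutations as pairs -/

/-- signed permutations as a permutation together with signs -/
abbrev SP (n : ℕ) := Equiv.Perm (Fin n) × (Fin n → Bool)

/-- the sign of a boolean -/
def sg (b : Bool) : ℤ := if b then 1 else -1

/-- the word of a signed permutation as a function on `ℕ` -/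
def bw {n : ℕ} (x : SP n) : ℕ → ℤ
  | 0 => 0
  | i + 1 => if h : i < n then sg (x.2 ⟨i, h⟩) * ((x.1 ⟨i, h⟩ : ℕ) + 1) else 0

/-- the odd extension of the word to the integers -/
def ext {n : ℕ} (x : SP n) (i : ℤ) : ℤ := i.sign * bw x i.natAbs

theorem sg_ne (b : Bool) : sg b ≠ 0 := by cases b <;> decide

theorem abs_sg (b : Bool) : |sg b| = 1 := by cases b <;> decide

theorem bw_succ {n : ℕ} (x : SP n) (i : Fin n) :
    bw x (i + 1) = sg (x.2 i) * ((x.1 i : ℕ) + 1) := by
  rw [bw, dif_pos i.2]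

theorem abs_bw {n : ℕ} (x : SP n) (i : Fin n) : |bw x (i + 1)| = (x.1 i : ℕ) + 1 := by
  rw [bw_succ, abs_mul, abs_sg, one_mul, abs_of_pos]
  positivity

theorem bw_big {n : ℕ} (x : SP n) (i : ℕ) (h : n < i) : bw x i = 0 := by
  cases i with
  | zero => omega
  | succ i => rw [bw, dif_neg (by omega)]

theorem mem_PM {n : ℕ} {i : ℤ} : i ∈ PM n ↔ ∃ j : Fin n, i.natAbs = j + 1 := by
  constructor
  · rintro ⟨h1, h2, h3⟩
    refine ⟨⟨i.natAbs - 1, by omega⟩, ?_⟩
    simp only
    omega
  · rintro ⟨j, hj⟩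
    have := j.2
    refine ⟨by omega, by omega, by omega⟩

theorem ext_odd {n : ℕ} (x : SP n) (i : ℤ) : ext x (-i) = - ext x i := by
  simp [ext, Int.sign_neg]

theorem sign_abs_one {i : ℤ} (h : i ≠ 0) : |i.sign| = 1 := by
  rcases lt_or_gt_of_ne h with h | h
  · rw [Int.sign_eq_neg_one_of_neg h]; rfl
  · rw [Int.sign_eq_one_of_pos h]; rfl

theorem ext_mem {n : ℕ} (x : SP n) {i : ℤ} (hi : i ∈ PM n) : ext x i ∈ PM n := by
  obtain ⟨j, hj⟩ := mem_PM.1 hi
  have h1 : |ext x i| = (x.1 j : ℕ) + 1 := by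
    rw [ext, hj, abs_mul, abs_bw, sign_abs_one hi.1, one_mul]
  have := (x.1 j).2
  have h3 := abs_le.1 h1.le
  refine ⟨?_, by omega, by omega⟩
  intro h0
  rw [h0] at h1
  simp at h1
  omega

theorem ext_isSigned {n : ℕ} (x : SP n) : IsSigned n (ext x) := by
  refine ⟨⟨fun i hi => ext_mem x hi, ?_, ?_⟩, fun i _ => ext_odd x i, ?_⟩
  · intro i hi k hk hik
    obtain ⟨j, hj⟩ := mem_PM.1 hi
    obtain ⟨l, hl⟩ := mem_PM.1 hk
    have h1 : |ext x i| = (x.1 j : ℕ) + 1 := by
      rw [ext, hj, abs_mul, abs_bw, sign_abs_one hi.1, one_mul]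
    have h2 : |ext x k| = (x.1 l : ℕ) + 1 := by
      rw [ext, hl, abs_mul, abs_bw, sign_abs_one hk.1, one_mul]
    rw [hik, h2] at h1
    have h3 : x.1 l = x.1 j := Fin.ext (by omega)
    have h4 : l = j := x.1.injective h3
    subst h4
    rw [ext, ext, hj, hl] at hik
    have h5 : bw x (l + 1) ≠ 0 := by
      intro h0
      have := abs_bw x l
      rw [h0] at this
      simp at this
      omega
    have h6 : i.sign = k.sign := mul_right_cancel₀ h5 hik
    have h7 : i = i.sign * i.natAbs := (Int.sign_mul_natAbs i).symm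
    have h8 : k = k.sign * k.natAbs := (Int.sign_mul_natAbs k).symm
    rw [h7, h8, hj, hl, h6]
  · intro k hk
    obtain ⟨l, hl⟩ := mem_PM.1 hk
    set j := x.1.symm l with hj
    have hxj : x.1 j = l := by rw [hj, Equiv.apply_symm_apply]
    refine ⟨sg (x.2 j) * k.sign * (j + 1), ?_, ?_⟩
    · rw [mem_PM]
      refine ⟨j, ?_⟩
      have h1 : ((sg (x.2 j) * k.sign * (j + 1) : ℤ)).natAbs = (j : ℕ) + 1 := by
        rw [Int.natAbs_mul, Int.natAbs_mul]
        have e1 : (sg (x.2 j)).natAbs = 1 := by cases x.2 j <;> rfl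
        have e2 : k.sign.natAbs = 1 := Int.natAbs_sign_of_ne_zero hk.1
        rw [e1, e2]
        omega
      exact h1
    · have h1 : ((sg (x.2 j) * k.sign * (j + 1) : ℤ)).natAbs = (j : ℕ) + 1 := by
        rw [Int.natAbs_mul, Int.natAbs_mul]
        have e1 : (sg (x.2 j)).natAbs = 1 := by cases x.2 j <;> rfl
        have e2 : k.sign.natAbs = 1 := Int.natAbs_sign_of_ne_zero hk.1
        rw [e1, e2]
        omega
      rw [ext, h1, bw_succ, hxj, Int.sign_mul, Int.sign_mul]
      have e3 : ((j : ℤ) + 1).sign = 1 := Int.sign_eq_one_of_pos (by positivity)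
      have e4 : (sg (x.2 j)).sign * sg (x.2 j) = 1 := by cases x.2 j <;> rfl
      have e5 : k.sign.sign = k.sign := by
        rcases lt_or_gt_of_ne hk.1 with h | h
        · rw [Int.sign_eq_neg_one_of_neg h]; rfl
        · rw [Int.sign_eq_one_of_pos h]; rfl
      have h8 : k = k.sign * k.natAbs := (Int.sign_mul_natAbs k).symm
      rw [e3, e5]
      conv_rhs => rw [h8, hl]
      push_cast
      linear_combination (k.sign * ((l : ℤ) + 1)) * e4
  · intro i hi
    by_cases h0 : i = 0
    · rw [h0, ext]; simp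
    · have : n < i.natAbs := by
        by_contra hcon
        apply hi
        refine ⟨h0, ?_⟩
        omega
      rw [ext, bw_big x _ this, mul_zero]

theorem ext_injective {n : ℕ} : Function.Injective (ext (n := n)) := by
  rintro ⟨σ, ε⟩ ⟨τ, δ⟩ h
  have h1 : ∀ i : Fin n, bw (σ, ε) (i + 1) = bw (τ, δ) (i + 1) := by
    intro i
    have h2 := congrFun h ((i : ℤ) + 1)
    have h3 : ((i : ℤ) + 1).natAbs = (i : ℕ) + 1 := by omega
    have h4 : ((i : ℤ) + 1).sign = 1 := Int.sign_eq_one_of_pos (by positivity)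
    rw [ext, ext, h3, h4, one_mul, one_mul] at h2
    exact h2
  have h5 : σ = τ := by
    ext i
    have h2 := abs_bw (σ, ε) i
    rw [h1 i, abs_bw] at h2
    simp only at h2
    omega
  subst h5
  refine Prod.ext rfl ?_
  funext i
  have h2 := h1 i
  rw [bw_succ, bw_succ] at h2
  simp only at h2
  have h3 : ((σ i : ℕ) : ℤ) + 1 ≠ 0 := by positivity
  have h4 : sg (ε i) = sg (δ i) := mul_right_cancel₀ h3 h2
  change ε i = δ i
  revert h4
  generalize ε i = a
  generalize δ i = b
  cases a <;> cases b <;> decide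

theorem exists_ext {n : ℕ} {w : ℤ → ℤ} (hw : IsSigned n w) : ∃ x : SP n, ext x = w := by
  obtain ⟨⟨hmap, hinj, hsurj⟩, hodd, hout⟩ := hw
  have hmem : ∀ i : Fin n, ((i : ℤ) + 1) ∈ PM n := by
    intro i
    rw [mem_PM]
    exact ⟨i, by omega⟩
  have hv : ∀ i : Fin n, ∃ j : Fin n, (w ((i : ℤ) + 1)).natAbs = j + 1 := fun i => mem_PM.1 (hmap (hmem i))
  choose f hf using hv
  have hfinj : Function.Injective f := by
    intro i k hik
    have h1 : (w ((i : ℤ) + 1)).natAbs = (w ((k : ℤ) + 1)).natAbs := by rw [hf, hf, hik]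
    rcases Int.natAbs_eq_natAbs_iff.1 h1 with h2 | h2
    · have := hinj (hmem i) (hmem k) h2
      exact Fin.ext (by omega)
    · rw [← hodd _ (hmem k)] at h2
      have hneg : -((k : ℤ) + 1) ∈ PM n := by
        rw [mem_PM]
        exact ⟨k, by omega⟩
      have := hinj (hmem i) hneg h2
      omega
  refine ⟨(Equiv.ofBijective f (Finite.injective_iff_bijective.1 hfinj),
    fun i => decide (0 < w ((i : ℤ) + 1))), ?_⟩
  have hpos : ∀ i : Fin n, bw (Equiv.ofBijective f (Finite.injective_iff_bijective.1 hfinj),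
      fun i : Fin n => decide (0 < w ((i : ℤ) + 1))) (i + 1) = w ((i : ℤ) + 1) := by
    intro i
    rw [bw_succ]
    simp only [Equiv.ofBijective_apply]
    have h1 := hf i
    have h2 : w ((i : ℤ) + 1) ≠ 0 := (hmap (hmem i)).1
    unfold sg
    by_cases h3 : 0 < w ((i : ℤ) + 1)
    · rw [if_pos (decide_eq_true h3)]
      omega
    · rw [if_neg (by simpa using h3)]
      omega
  funext k
  by_cases hk : k ∈ PM n
  · obtain ⟨j, hj⟩ := mem_PM.1 hk
    rw [ext, hj, hpos j]
    rcases lt_or_gt_of_ne hk.1 with h | h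
    · rw [Int.sign_eq_neg_one_of_neg h]
      have : k = -((j : ℤ) + 1) := by omega
      rw [this, hodd _ (hmem j)]
      ring
    · rw [Int.sign_eq_one_of_pos h]
      have : k = ((j : ℤ) + 1) := by omega
      rw [this]
      ring
  · rw [hout k hk]
    exact (ext_isSigned _).2.2 k hk

/-! ### Insertion -/

/-- number of descents of a function on `0, ..., n` -/
def dn (f : ℕ → ℤ) (n : ℕ) : ℕ := ∑ i ∈ Finset.range n, if f (i + 1) < f i then 1 else 0

/-- insertion of the value `M` at the place `p` -/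
def ins (f : ℕ → ℤ) (p : ℕ) (M : ℤ) (i : ℕ) : ℤ := if i < p then f i else if i = p then M else f (i - 1)

theorem dn_succ (f : ℕ → ℤ) (n : ℕ) :
    dn f (n + 1) = dn f n + if f (n + 1) < f n then 1 else 0 := Finset.sum_range_succ _ _

theorem ins_lt (f : ℕ → ℤ) (p : ℕ) (M : ℤ) (i : ℕ) (h : i < p) : ins f p M i = f i := if_pos h

theorem ins_eq (f : ℕ → ℤ) (p : ℕ) (M : ℤ) : ins f p M p = M := by simp [ins]

theorem ins_gt (f : ℕ → ℤ) (p : ℕ) (M : ℤ) (i : ℕ) (h : p ≤ i) : ins f p M (i + 1) = f i := by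
  unfold ins
  rw [if_neg (by omega), if_neg (by omega)]
  simp

theorem ins_last (f : ℕ → ℤ) (M : ℤ) (n : ℕ) :
    dn (ins f (n + 1) M) (n + 1) = dn f n + if M < f n then 1 else 0 := by
  rw [dn_succ, ins_eq, ins_lt _ _ _ _ (Nat.lt_succ_self n)]
  congr 1
  unfold dn
  apply Finset.sum_congr rfl
  intro i hi
  rw [Finset.mem_range] at hi
  rw [ins_lt _ _ _ _ (by omega), ins_lt _ _ _ _ (by omega)]

theorem ins_mid (f : ℕ → ℤ) (M : ℤ) (p n : ℕ) (hp : p + 1 ≤ n)
    (hM : (∀ i ≤ n, f i < M) ∨ ∀ i ≤ n, M < f i) :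
    dn (ins f (p + 1) M) (n + 1) + (if f (p + 1) < f p then 1 else 0) = dn f n + 1 := by
  induction n, hp using Nat.le_induction with
  | base =>
    rw [dn_succ, ins_last, ins_eq, ins_gt _ _ _ _ le_rfl, dn_succ]
    rcases hM with hM | hM
    · rw [if_pos (hM (p + 1) le_rfl), if_neg (not_lt.2 (hM p (by omega)).le)]
      omega
    · rw [if_neg (not_lt.2 (hM (p + 1) le_rfl).le), if_pos (hM p (by omega))]
      omega
  | succ n hn ih =>
    have h2 := ih (by
      rcases hM with hM | hM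
      · exact Or.inl fun i hi => hM i (by omega)
      · exact Or.inr fun i hi => hM i (by omega))
    rw [dn_succ, ins_gt _ _ _ (n + 1) (by omega), ins_gt _ _ _ n hn, dn_succ f n]
    omega

/-- the number of descents of a signed permutation -/
def ds {n : ℕ} (x : SP n) : ℕ := dn (bw x) n

theorem desB_ext {n : ℕ} (x : SP n) : desB n (ext x) = ds x := by
  unfold desB ds dn
  rw [Finset.card_filter]
  refine Finset.sum_congr rfl fun i _ => ?_
  have h1 : ext x ((i : ℤ) + 1) = bw x (i + 1) := by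
    have h3 : ((i : ℤ) + 1).natAbs = (i : ℕ) + 1 := by omega
    have h4 : ((i : ℤ) + 1).sign = 1 := Int.sign_eq_one_of_pos (by positivity)
    rw [ext, h3, h4, one_mul]
  have h2 : ext x (i : ℤ) = bw x i := by
    cases i with
    | zero => simp [ext, bw]
    | succ i =>
      have h3 : (((i + 1 : ℕ) : ℤ)).natAbs = (i : ℕ) + 1 := by omega
      have h4 : (((i + 1 : ℕ) : ℤ)).sign = 1 := Int.sign_eq_one_of_pos (by positivity)
      rw [ext, h3, h4, one_mul]
  rw [h1, h2]

theorem ds_le {n : ℕ} (x : SP n) : ds x ≤ n := by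
  rw [← desB_ext]
  unfold desB
  refine (Finset.card_filter_le _ _).trans ?_
  rw [Finset.card_range]

/-- insertion of the largest value at the place `p` -/
def Ph {n : ℕ} (x : Fin (n + 1) × Equiv.Perm (Fin n)) : Equiv.Perm (Fin (n + 1)) :=
  (finSuccEquiv' x.1).trans ((Equiv.optionCongr x.2).trans (finSuccEquiv' (Fin.last n)).symm)

theorem Ph_self {n : ℕ} (p : Fin (n + 1)) (τ : Equiv.Perm (Fin n)) :
    Ph (p, τ) p = Fin.last n := by
  simp [Ph]

theorem Ph_succAbove {n : ℕ} (p : Fin (n + 1)) (τ : Equiv.Perm (Fin n)) (i : Fin n) :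
    Ph (p, τ) (p.succAbove i) = (τ i).castSucc := by
  simp [Ph]

theorem Ph_bij {n : ℕ} : Function.Bijective (Ph (n := n)) := by
  rw [Fintype.bijective_iff_injective_and_card]
  constructor
  · rintro ⟨p, τ⟩ ⟨p', τ'⟩ h
    have h1 : p = p' := by
      apply (Ph (p, τ)).injective
      rw [Ph_self, h, Ph_self]
    subst h1
    congr 1
    ext i
    have h2 := congrArg (fun e : Equiv.Perm (Fin (n + 1)) => (e (p.succAbove i)).val) h
    simp only [Ph_succAbove, Fin.val_castSucc] at h2
    exact h2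
  · rw [Fintype.card_prod, Fintype.card_perm, Fintype.card_perm, Fintype.card_fin,
      Fintype.card_fin, Nat.factorial_succ]

/-- insertion of the largest value with a sign at the place `p` -/
def Phs {n : ℕ} (x : (Fin (n + 1) × Bool) × SP n) : SP (n + 1) :=
  (Ph (x.1.1, x.2.1), x.1.1.insertNth x.1.2 x.2.2)

theorem Phs_bij {n : ℕ} : Function.Bijective (Phs (n := n)) := by
  constructor
  · rintro ⟨⟨p, s⟩, τ, ε⟩ ⟨⟨p', s'⟩, τ', ε'⟩ h
    simp only [Phs, Prod.mk.injEq] at h
    obtain ⟨h1, h2⟩ := h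
    have h3 := Ph_bij.1 h1
    rw [Prod.mk.injEq] at h3
    obtain ⟨rfl, rfl⟩ := h3
    have h4 : s = s' := by
      have := congrFun h2 p
      simpa using this
    subst h4
    have h5 : ε = ε' := by
      funext i
      have := congrFun h2 (p.succAbove i)
      simpa using this
    subst h5
    rfl
  · rintro ⟨σ, δ⟩
    obtain ⟨⟨p, τ⟩, hp⟩ := Ph_bij.2 σ
    refine ⟨((p, δ p), (τ, fun i => δ (p.succAbove i))), ?_⟩
    simp only [Phs, hp]
    congr 1
    exact Fin.insertNth_self_removeNth p δ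

theorem bw_Phs {n : ℕ} (p : Fin (n + 1)) (s : Bool) (x : SP n) (i : ℕ) (hi : i ≤ n + 1) :
    bw (Phs ((p, s), x)) i = ins (bw x) (p + 1) (sg s * (n + 1)) i := by
  cases i with
  | zero => rw [ins_lt _ _ _ _ (by omega)]; rfl
  | succ i =>
    have e1 : bw (Phs ((p, s), x)) (i + 1) =
        sg ((Phs ((p, s), x)).2 ⟨i, by omega⟩) * (((Phs ((p, s), x)).1 ⟨i, by omega⟩ : ℕ) + 1) := by
      rw [bw, dif_pos]
    rw [e1]
    rcases lt_trichotomy i p.val with h | h | h
    · rw [ins_lt _ _ _ _ (by omega)]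
      have hi' : i < n := by have := p.2; omega
      have h1 : p.succAbove ⟨i, hi'⟩ = ⟨i, by omega⟩ := by
        rw [Fin.succAbove_of_castSucc_lt]
        · rfl
        · exact h
      rw [← h1, bw, dif_pos hi']
      simp only [Phs, Ph_succAbove, Fin.val_castSucc, Fin.insertNth_apply_succAbove]
    · have h1 : (⟨i, by omega⟩ : Fin (n + 1)) = p := Fin.ext h
      rw [h1, h, ins_eq]
      simp only [Phs, Ph_self, Fin.insertNth_apply_same, Fin.val_last]
    · rw [ins_gt _ _ _ _ (by omega)]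
      obtain ⟨i, rfl⟩ : ∃ j, i = j + 1 := ⟨i - 1, by omega⟩
      have hi' : i < n := by omega
      have h1 : p.succAbove ⟨i, hi'⟩ = ⟨i + 1, by omega⟩ := by
        rw [Fin.succAbove_of_le_castSucc]
        · rfl
        · rw [Fin.le_def]
          simp only [Fin.val_castSucc]
          omega
      rw [← h1, bw, dif_pos hi']
      simp only [Phs, Ph_succAbove, Fin.val_castSucc, Fin.insertNth_apply_succAbove]

theorem ds_Phs {n : ℕ} (p : Fin (n + 1)) (s : Bool) (x : SP n) :
    ds (Phs ((p, s), x)) = dn (ins (bw x) (p + 1) (sg s * (n + 1))) (n + 1) := by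
  unfold ds dn
  refine Finset.sum_congr rfl fun i hi => ?_
  rw [Finset.mem_range] at hi
  rw [bw_Phs p s x i (by omega), bw_Phs p s x (i + 1) (by omega)]

theorem bw_abs_le {n : ℕ} (x : SP n) (i : ℕ) : |bw x i| ≤ n := by
  cases i with
  | zero => simp [bw]
  | succ i =>
    by_cases h : i < n
    · have := abs_bw x ⟨i, h⟩
      simp only at this
      rw [this]
      have := (x.1 ⟨i, h⟩).2
      omega
    · rw [bw_big x _ (by omega)]
      simp

theorem sum_insert {n : ℕ} (x : SP n) (h : ℕ → ℝ) :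
    ∑ ps : Fin (n + 1) × Bool, h (ds (Phs (ps, x))) =
      (2 * (ds x : ℝ) + 1) * h (ds x) + (2 * ((n : ℝ) - ds x) + 1) * h (ds x + 1) := by
  rw [Fintype.sum_prod_type]
  simp only [Fintype.sum_bool, ds_Phs]
  have hbig : ∀ i ≤ n, bw x i < sg true * (n + 1) := by
    intro i _
    have := abs_le.1 (bw_abs_le x i)
    simp only [sg, if_true]
    linarith [this.2]
  have hsmall : ∀ i ≤ n, sg false * (n + 1) < bw x i := by
    intro i _
    have := abs_le.1 (bw_abs_le x i)
    simp only [sg]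
    norm_num
    linarith [this.1]
  rw [← Finset.sum_range (fun p : ℕ => h (dn (ins (bw x) (p + 1) (sg true * (n + 1))) (n + 1)) +
    h (dn (ins (bw x) (p + 1) (sg false * (n + 1))) (n + 1))), Finset.sum_range_succ, ins_last,
    ins_last, if_neg (not_lt.2 (hbig n le_rfl).le), if_pos (hsmall n le_rfl)]
  have h1 : ∀ q ∈ Finset.range n,
      h (dn (ins (bw x) (q + 1) (sg true * (n + 1))) (n + 1)) +
        h (dn (ins (bw x) (q + 1) (sg false * (n + 1))) (n + 1)) =
      (if bw x (q + 1) < bw x q then (1 : ℝ) else 0) * (2 * h (ds x)) +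
      (1 - (if bw x (q + 1) < bw x q then (1 : ℝ) else 0)) * (2 * h (ds x + 1)) := by
    intro q hq
    rw [Finset.mem_range] at hq
    have h2 := ins_mid (bw x) _ q n (by omega) (Or.inl hbig)
    have h3 := ins_mid (bw x) _ q n (by omega) (Or.inr hsmall)
    change _ = ds x + 1 at h2
    change _ = ds x + 1 at h3
    by_cases hd : bw x (q + 1) < bw x q
    · rw [if_pos hd] at h2 h3 ⊢
      rw [show dn (ins (bw x) (q + 1) (sg true * (n + 1))) (n + 1) = ds x by omega,
        show dn (ins (bw x) (q + 1) (sg false * (n + 1))) (n + 1) = ds x by omega]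
      ring
    · rw [if_neg hd] at h2 h3 ⊢
      rw [show dn (ins (bw x) (q + 1) (sg true * (n + 1))) (n + 1) = ds x + 1 by omega,
        show dn (ins (bw x) (q + 1) (sg false * (n + 1))) (n + 1) = ds x + 1 by omega]
      ring
  rw [Finset.sum_congr rfl h1, Finset.sum_add_distrib, ← Finset.sum_mul, ← Finset.sum_mul,
    Finset.sum_sub_distrib]
  have h5 : ∑ q ∈ Finset.range n, (if bw x (q + 1) < bw x q then (1 : ℝ) else 0) = ds x := by
    unfold ds dn
    push_cast
    rfl
  rw [h5]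
  simp only [Finset.sum_const, Finset.card_range, nsmul_eq_mul, mul_one, add_zero]
  change _ + (h (ds x) + h (ds x + 1)) = _
  ring

theorem sum_succ (n : ℕ) (h : ℕ → ℝ) :
    ∑ y : SP (n + 1), h (ds y) = ∑ x : SP n,
      ((2 * (ds x : ℝ) + 1) * h (ds x) + (2 * ((n : ℝ) - ds x) + 1) * h (ds x + 1)) := by
  rw [← Function.Bijective.sum_comp Phs_bij (fun y => h (ds y)), Fintype.sum_prod_type_right]
  exact Finset.sum_congr rfl fun x _ => sum_insert x h

theorem B_eq (n k : ℕ) : B n k = ((Finset.univ : Finset (SP n)).filter (fun x => ds x = k)).card := by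
  unfold B
  have h1 : {w : ℤ → ℤ | IsSigned n w ∧ desB n w = k} =
      ext '' (((Finset.univ : Finset (SP n)).filter (fun x => ds x = k) : Finset (SP n)) : Set (SP n)) := by
    ext w
    simp only [Set.mem_ofPred_eq, Set.mem_image, Finset.coe_filter, Finset.mem_univ, true_and]
    constructor
    · rintro ⟨hw, hd⟩
      obtain ⟨x, rfl⟩ := exists_ext hw
      exact ⟨x, by rw [← desB_ext]; exact hd, rfl⟩
    · rintro ⟨x, hx, rfl⟩
      exact ⟨ext_isSigned x, by rw [desB_ext]; exact hx⟩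
  rw [h1, Set.ncard_image_of_injective _ ext_injective, Set.ncard_coe_finset]

theorem sum_B (n : ℕ) (x : ℕ → ℝ) :
    ∑ k ∈ Finset.range (n + 1), (B n k : ℝ) * x k = ∑ y : SP n, x (ds y) := by
  have h1 : ∀ k ∈ Finset.range (n + 1), (B n k : ℝ) * x k =
      ∑ y ∈ (Finset.univ : Finset (SP n)).filter (fun y => ds y = k), x (ds y) := by
    intro k _
    rw [B_eq, ← nsmul_eq_mul, ← Finset.sum_const]
    refine Finset.sum_congr rfl fun y hy => ?_
    rw [(Finset.mem_filter.1 hy).2]
  rw [Finset.sum_congr rfl h1]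
  exact Finset.sum_fiberwise_of_maps_to (fun y _ => by
    rw [Finset.mem_range]
    have := ds_le y
    omega) _

/-- The type B Eulerian transformation `z_n = ∑_k B_{n,k} x_k` preserves log-convexity. -/
theorem result (x : ℕ → ℝ) (hx : ∀ n, 0 ≤ x n) (hlc : LogConvex x) :
    LogConvex (fun n => ∑ k ∈ Finset.range (n + 1), (B n k : ℝ) * x k) := by
  intro m hm
  obtain ⟨n, rfl⟩ := Nat.exists_eq_add_of_le' hm
  simp only [Nat.add_sub_cancel]
  have e0 := sum_B n x
  have e1 := sum_B (n + 1) x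
  have e2 := sum_B (n + 1 + 1) x
  rw [e0, e1, e2, sum_succ (n + 1), sum_succ n, sum_succ n (fun d => (2 * (d : ℝ) + 1) * x d +
    (2 * (((n + 1 : ℕ) : ℝ) - d) + 1) * x (d + 1))]
  apply Finset.sum_sq_le_sum_mul_sum_of_sq_le_mul
  · intro y _
    exact hx _
  · intro y _
    have hkn : (ds y : ℝ) ≤ n := by exact_mod_cast ds_le y
    have h0 := hx (ds y)
    have h1 := hx (ds y + 1)
    have h2 := hx (ds y + 1 + 1)
    have hd : (0 : ℝ) ≤ ds y := Nat.cast_nonneg _
    have hq : (0 : ℝ) ≤ 2 * ((n : ℝ) - ds y) + 1 := by linarith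
    have hq1 : (0 : ℝ) ≤ 2 * (((n + 1 : ℕ) : ℝ) - ds y) + 1 := by push_cast; linarith
    have hq2 : (0 : ℝ) ≤ 2 * (((n + 1 : ℕ) : ℝ) - ((ds y + 1 : ℕ) : ℝ)) + 1 := by push_cast; linarith
    positivity
  · intro y _
    have hkn : (ds y : ℝ) ≤ n := by exact_mod_cast ds_le y
    have h0 := hx (ds y)
    have h1 := hx (ds y + 1)
    have h2 := hx (ds y + 1 + 1)
    have hd : (0 : ℝ) ≤ ds y := Nat.cast_nonneg _
    have hq : (0 : ℝ) ≤ 2 * ((n : ℝ) - ds y) + 1 := by linarith
    have hc := hlc (ds y + 1) (by omega)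
    simp only [Nat.add_sub_cancel] at hc
    have p1 : 0 ≤ 2 * (2 * (n : ℝ) + 2) * (x (ds y) * x (ds y + 1)) := by positivity
    have p2 : 0 ≤ (2 * ((n : ℝ) - ds y) + 1) ^ 2 *
        (x (ds y) * x (ds y + 1 + 1) - x (ds y + 1) ^ 2) :=
      mul_nonneg (sq_nonneg _) (by linarith)
    push_cast
    nlinarith [p1, p2]

end Pool.Agent.Results.MP_209e83_co.TypeB
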